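import Mathlib
import Pool.Agent.H598R2.Core
import Pool.Agent.H598R2.Collapse
import Pool.Agent.H632R2.Cogirth

/-!
# The co-girth of the planar rigidity matroid is NP-hard to compute

Complexity notions are those of `Pool.Agent.NPC.Defs`: polynomial time is Mathlib's
`Turing.TM2ComputableInPolyTime` on bit strings, `NP` is defined by certificates, hardness is under
polynomial-time many-one reductions, and data (numbers in binary, pairs, lists) are coded by
bit strings (`bits`).

`Pool.Agent.H632R2.Cogirth` defines, for a graph `G` on a finite vertex type, the rigidity matrix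
`rigidityMatrix G p`, generic realizations, `RigidInPlane G` and `cogirth G`; for a coded graph
`I = (n, E)`, `graph I` is the graph on `{0, …, n-1}` with the edges listed in `E`.
-/

namespace Pool.Agent.Results.MP_702614_lc.CogirthNPHard

open Pool.Agent.NPC Pool.Agent.H632R2.Cogirth

/-- Instances `(G, k)` where `G` is rigid in the plane. -/
theorem hardPr_cogirth : HardPr
    (fun I : (ℕ × List (ℕ × ℕ)) × ℕ => IsCode I.1 ∧ RigidInPlane (graph I.1))
    (fun I => cogirth (graph I.1) ≤ I.2) := by
  intro L hL
  obtain ⟨f, hf, hpr, hfL⟩ := Pool.Agent.NPC.H598R2.hardPr_core L hL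
  refine ⟨f, hf, fun x => ?_, fun x => ?_⟩
  · obtain ⟨h1, h2⟩ := hpr x
    exact ⟨h1, (rigidInPlane_graph h1).2 h2⟩
  · rw [hfL x]
    exact (cogirth_graph (hpr x).1 _).symm

/-- **Computing the co-girth of the planar rigidity matroid is NP-hard.**

(i) Deciding whether `c(G) ≤ k`, for graphs `G` that are rigid in the plane and numbers `k`, is
NP-hard under polynomial-time many-one reductions.

(ii) If some polynomial-time algorithm computes `c(G)` for all graphs `G` that are rigid in the
plane, then every language in `NP` is decidable in polynomial time. -/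
theorem result :
    NPHardP (fun I : (ℕ × List (ℕ × ℕ)) × ℕ =>
      IsCode I.1 ∧ RigidInPlane (graph I.1) ∧ cogirth (graph I.1) ≤ I.2) ∧
    ((∃ A : List Bool → List Bool, PolyTime A ∧
        ∀ I : ℕ × List (ℕ × ℕ), IsCode I → RigidInPlane (graph I) →
          A (bits I) = bits (cogirth (graph I))) →
      ∀ L : Set (List Bool), InNP L → InP L) := by
  refine ⟨?_, ?_⟩
  · refine HardI.toNPHardP ?_
    intro L hL
    obtain ⟨f, hf, hpr, hfL⟩ := hardPr_cogirth L hL
    exact ⟨f, hf, fun x => (hfL x).trans
      ⟨fun h => ⟨(hpr x).1, (hpr x).2, h⟩, fun h => h.2.2⟩⟩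
  · rintro ⟨A, hA, hc⟩
    exact Pool.Agent.NPC.H598R2.collapse_fun (c := fun I => cogirth (graph I)) hardPr_cogirth
      (fun I _ => Iff.rfl) hA (fun I hI => hc I.1 hI.1 hI.2)

end Pool.Agent.Results.MP_702614_lc.CogirthNPHard
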